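import Pool.Agent.TH588.MX.Lin

/-!
# Extension of representations and solvability
-/

set_option autoImplicit false

namespace Pool.Agent.TH588.MX

open Pool.Agent.NPC Pool.Agent.H881R2.Mat Pool.Agent.H528R5
open Pool.Agent.H528R2 (HoldsQ)

theorem len6 (S : List ER.Con) : 5 < (labs (sysG S)).length := by
  obtain ⟨L, hL⟩ := labs_sysG S
  rw [hL]
  simp

/-- the index of `pu 66` -/
def j4 (S : List ER.Con) : Fin (labs (sysG S)).length := ⟨4, by have := len6 S; omega⟩
/-- the index of `pr 66` -/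
def j5 (S : List ER.Con) : Fin (labs (sysG S)).length := ⟨5, len6 S⟩

theorem labs_j4 (S : List ER.Con) : (labs (sysG S))[j4 S] = pu 66 := rfl
theorem labs_j5 (S : List ER.Con) : (labs (sysG S))[j5 S] = pr 66 := rfl

/-- the four marked elements -/
def mk (S : List ER.Con) : Fin 4 → Fin (labs (sysG S)).length :=
  ![i3 (sysG S), i0 (sysG S), j4 S, j5 S]

section

variable {S : List ER.Con} {M : Matroid (Fin (labs (sysG S)).length)} (h : IsM (sysG S) M)

include h

theorem ind_aux {i j k : Fin (labs (sysG S)).length} (hij : i < j) (hjk : j < k)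
    (hd : dep (sysG S) (labs (sysG S))[i] (labs (sysG S))[j] (labs (sysG S))[k] = false) :
    M.Indep {i, j} ∧ M.Indep {i, k} ∧ M.Indep {j, k} := by
  have h1 := (h.indep_triple hij hjk).2 hd
  refine ⟨h1.subset ?_, h1.subset ?_, h1.subset ?_⟩ <;>
  · intro x hx
    simp only [Set.mem_insert_iff, Set.mem_singleton_iff] at hx ⊢
    tauto

theorem ind_pairs : ∀ i j : Fin 4, i ≠ j → M.Indep {mk S i, mk S j} := by
  have a1 := ind_aux h (i := i0 (sysG S)) (j := i1 (sysG S)) (k := i3 (sysG S)) (i0_lt _) (i1_lt _)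
    (dep_basis _)
  have a2 := ind_aux h (i := i0 (sysG S)) (j := i1 (sysG S)) (k := j4 S) (i0_lt _)
    (by simp [i1, j4, Fin.lt_def]) (TaskW.nd pY pO (pu 66) (by decide))
  have a3 := ind_aux h (i := i0 (sysG S)) (j := i1 (sysG S)) (k := j5 S) (i0_lt _)
    (by simp [i1, j5, Fin.lt_def]) (TaskW.nd pY pO (pr 66) (by decide))
  have a4 := ind_aux h (i := i1 (sysG S)) (j := i3 (sysG S)) (k := j4 S) (i1_lt _)
    (by simp [i3, j4, Fin.lt_def]) (TaskW.nd pO pX (pu 66) (by decide))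
  have a5 := ind_aux h (i := i1 (sysG S)) (j := i3 (sysG S)) (k := j5 S) (i1_lt _)
    (by simp [i3, j5, Fin.lt_def]) (TaskW.nd pO pX (pr 66) (by decide))
  have a6 := ind_aux h (i := i1 (sysG S)) (j := j4 S) (k := j5 S)
    (by simp [i1, j4, Fin.lt_def]) (by simp [j4, j5, Fin.lt_def])
    (TaskW.nd pO (pu 66) (pr 66) (by decide))
  intro i j hij
  fin_cases i <;> fin_cases j <;> first
    | exact absurd rfl hij
    | exact a1.2.1
    | (rw [Set.pair_comm]; exact a1.2.1)
    | exact a2.2.1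
    | (rw [Set.pair_comm]; exact a2.2.1)
    | exact a3.2.1
    | (rw [Set.pair_comm]; exact a3.2.1)
    | exact a4.2.2
    | (rw [Set.pair_comm]; exact a4.2.2)
    | exact a5.2.2
    | (rw [Set.pair_comm]; exact a5.2.2)
    | exact a6.2.2
    | (rw [Set.pair_comm]; exact a6.2.2)

theorem dep_aux {i j k : Fin (labs (sysG S)).length} (hij : i < j) (hjk : j < k)
    (h1 : onR (labs (sysG S))[i] = true) (h2 : onR (labs (sysG S))[j] = true)
    (h3 : onR (labs (sysG S))[k] = true) : ¬ M.Indep {i, j, k} := by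
  rw [h.indep_triple hij hjk, Bool.not_eq_false, H881R2.Mat.dep_iff]
  exact Or.inr (Or.inr (Or.inr (Or.inl ⟨h1, h2, h3⟩)))

theorem dep_compl (l : Fin 4) : ¬ M.Indep (mk S '' {x | x ≠ l}) := by
  have b1 := dep_aux h (i := i0 (sysG S)) (j := i3 (sysG S)) (k := j4 S)
    (by simp [i0, i3, Fin.lt_def]) (by simp [i3, j4, Fin.lt_def]) rfl rfl rfl
  have b2 := dep_aux h (i := i0 (sysG S)) (j := i3 (sysG S)) (k := j5 S)
    (by simp [i0, i3, Fin.lt_def]) (by simp [i3, j5, Fin.lt_def]) rfl rfl rfl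
  have b3 := dep_aux h (i := i0 (sysG S)) (j := j4 S) (k := j5 S)
    (by simp [i0, j4, Fin.lt_def]) (by simp [j4, j5, Fin.lt_def]) rfl rfl rfl
  have b4 := dep_aux h (i := i3 (sysG S)) (j := j4 S) (k := j5 S)
    (by simp [i3, j4, Fin.lt_def]) (by simp [j4, j5, Fin.lt_def]) rfl rfl rfl
  have key : ∀ {i j k : Fin 4}, i ≠ l → j ≠ l → k ≠ l →
      ¬ M.Indep {mk S i, mk S j, mk S k} → ¬ M.Indep (mk S '' {x | x ≠ l}) := by
    intro i j k hi hj hk hn hI
    apply hn
    refine hI.subset ?_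
    intro x hx
    simp only [Set.mem_insert_iff, Set.mem_singleton_iff] at hx
    rcases hx with rfl | rfl | rfl
    · exact ⟨_, hi, rfl⟩
    · exact ⟨_, hj, rfl⟩
    · exact ⟨_, hk, rfl⟩
  fin_cases l
  · exact key (i := 1) (j := 2) (k := 3) (by decide) (by decide) (by decide) b3
  · exact key (i := 0) (j := 2) (k := 3) (by decide) (by decide) (by decide) b4
  · exact key (i := 1) (j := 0) (k := 3) (by decide) (by decide) (by decide) b2
  · exact key (i := 1) (j := 0) (k := 2) (by decide) (by decide) (by decide) b1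

omit h in
theorem exists_missing : ∀ i j k : Fin 4, i ≠ j → i ≠ k → j ≠ k →
    ∃ l : Fin 4, ∀ x, x ≠ l → x = i ∨ x = j ∨ x = k := by decide

theorem dep_triples (i j k : Fin 4) (hij : i ≠ j) (hik : i ≠ k) (hjk : j ≠ k) :
    ¬ M.Indep {mk S i, mk S j, mk S k} := by
  obtain ⟨l, hl⟩ := exists_missing i j k hij hik hjk
  intro hI
  refine dep_compl h l (hI.subset ?_)
  rintro x ⟨y, hy, rfl⟩
  rcases hl y hy with rfl | rfl | rfl <;> simp

omit h in
theorem mk_injective : Function.Injective (mk S) := by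
  intro i j hij
  by_contra hne
  revert hij
  fin_cases i <;> fin_cases j <;> first
    | exact absurd rfl hne
    | (simp [mk, i0, i3, j4, j5, Fin.ext_iff]; done)

end

/-- the vectors `u` represent the restriction of `M` to the marked elements -/
def RepU {N : ℕ} (M : Matroid (Fin N)) (e : Fin 4 → Fin N) (u : Fin 4 → Fin 3 → ℚ) : Prop :=
  ∀ I : Set (Fin 4), M.Indep (e '' I) ↔ LinearIndepOn ℚ u I

/-- the vectors `u` extend to a representation of `M` -/
def ExtU {N : ℕ} (M : Matroid (Fin N)) (e : Fin 4 → Fin N) (u : Fin 4 → Fin 3 → ℚ) : Prop :=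
  ∃ v : Fin N → Fin 3 → ℚ, (∀ I : Set (Fin N), M.Indep I ↔ LinearIndepOn ℚ v I) ∧
    ∀ i, v (e i) = u i

/-- four vectors with cross ratio `t` -/
def ut (t : ℚ) : Fin 4 → Fin 3 → ℚ := ![![1, 0, 0], ![0, 1, 0], ![1, 1, 0], ![1, t, 0]]

theorem li_of_det {x y : Fin 3 → ℚ} (h : x 0 * y 1 - x 1 * y 0 ≠ 0) {c d : ℚ}
    (h0 : c * x 0 + d * y 0 = 0) (h1 : c * x 1 + d * y 1 = 0) : c = 0 ∧ d = 0 := by
  have e1 : c * (x 0 * y 1 - x 1 * y 0) = 0 := by linear_combination y 1 * h0 - y 0 * h1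
  have e2 : d * (x 0 * y 1 - x 1 * y 0) = 0 := by linear_combination x 0 * h1 - x 1 * h0
  exact ⟨(mul_eq_zero.1 e1).resolve_right h, (mul_eq_zero.1 e2).resolve_right h⟩

theorem det_ut {t : ℚ} (h0 : t ≠ 0) (h1 : t ≠ 1) : ∀ i j : Fin 4, i ≠ j →
    ut t i 0 * ut t j 1 - ut t i 1 * ut t j 0 ≠ 0 := by
  have h1' : t - 1 ≠ 0 := sub_ne_zero.2 h1
  have h1'' : 1 - t ≠ 0 := sub_ne_zero.2 (Ne.symm h1)
  intro i j hij
  fin_cases i <;> fin_cases j <;> first
    | exact absurd rfl hij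
    | (simp [ut]; done)
    | (simp only [ut]; simpa using h0)
    | (simp only [ut]; simpa using h1')
    | (simp only [ut]; simpa using h1'')

theorem pair_ut {t : ℚ} (h0 : t ≠ 0) (h1 : t ≠ 1) (i j : Fin 4) (hij : i ≠ j) :
    LinearIndepOn ℚ (ut t) {i, j} := by
  rw [LinearIndepOn.pair_iff _ hij]
  intro c d hcd
  have e0 := congrFun hcd 0
  have e1 := congrFun hcd 1
  simp only [Pi.add_apply, Pi.smul_apply, smul_eq_mul, Pi.zero_apply] at e0 e1
  exact li_of_det (det_ut h0 h1 i j hij) e0 e1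

theorem ut_2 (t : ℚ) (i : Fin 4) : ut t i 2 = 0 := by
  fin_cases i <;> simp [ut]

theorem tri_ut (t : ℚ) : ∀ i j k : Fin 4, i ≠ j → i ≠ k → j ≠ k →
    ¬ LinearIndepOn ℚ (ut t) {i, j, k} := by
  refine sorted_wlog (fun i j k : Fin 4 => ¬ LinearIndepOn ℚ (ut t) {i, j, k}) ?_ ?_ ?_
  · intro i j k h
    rwa [Set.insert_comm]
  · intro i j k h
    rwa [Set.pair_comm]
  · intro i j k hij hjk
    rw [linearIndepOn_triple _ hij hjk, li_iff_det3, not_not]
    simp only [det3, ut_2]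
    ring

theorem small_or_triple_fin : ∀ F : Finset (Fin 4), (∃ i j : Fin 4, i ≠ j ∧ F ⊆ {i, j}) ∨
    ∃ i j k : Fin 4, i ≠ j ∧ i ≠ k ∧ j ≠ k ∧ ({i, j, k} : Finset (Fin 4)) ⊆ F := by
  decide

/-- sets of at most two elements, or containing three elements -/
theorem small_or_triple (I : Set (Fin 4)) : (∃ i j : Fin 4, i ≠ j ∧ I ⊆ {i, j}) ∨
    ∃ i j k : Fin 4, i ≠ j ∧ i ≠ k ∧ j ≠ k ∧ ({i, j, k} : Set (Fin 4)) ⊆ I := by
  classical
  have hI : ((I.toFinset : Finset (Fin 4)) : Set (Fin 4)) = I := by simp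
  rcases small_or_triple_fin I.toFinset with ⟨i, j, hij, h⟩ | ⟨i, j, k, h1, h2, h3, h⟩
  · left
    refine ⟨i, j, hij, ?_⟩
    rw [← Finset.coe_subset, hI] at h
    simpa using h
  · right
    refine ⟨i, j, k, h1, h2, h3, ?_⟩
    rw [← Finset.coe_subset, hI] at h
    simpa using h

/-- the vectors `ut t` represent the line -/
theorem repU_ut {S : List ER.Con} {M : Matroid (Fin (labs (sysG S)).length)}
    (h : IsM (sysG S) M) {t : ℚ} (h0 : t ≠ 0) (h1 : t ≠ 1) : RepU M (mk S) (ut t) := by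
  intro I
  rcases small_or_triple I with ⟨i, j, hij, hI⟩ | ⟨i, j, k, hij, hik, hjk, hI⟩
  · refine iff_of_true ?_ ((pair_ut h0 h1 i j hij).mono hI)
    refine (ind_pairs h i j hij).subset ?_
    rw [← Set.image_pair]
    exact Set.image_mono hI
  · refine iff_of_false ?_ (fun hl => tri_ut t i j k hij hik hjk (hl.mono hI))
    intro hM
    refine dep_triples h i j k hij hik hjk (hM.subset ?_)
    have e : ({mk S i, mk S j, mk S k} : Set _) = mk S '' {i, j, k} := by
      rw [Set.image_insert_eq, Set.image_pair]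
    rw [e]
    exact Set.image_mono hI

theorem ext_ut {S : List ER.Con} {M : Matroid (Fin (labs (sysG S)).length)}
    (h : IsM (sysG S) M) {t : ℚ} (h0 : t ≠ 0) (h1 : t ≠ 1) (hE : ExtU M (mk S) (ut t)) :
    ∃ v : ℕ → ℚ, (∀ c ∈ S, HoldsQ v c) ∧ v 1 = t := by
  classical
  obtain ⟨v, hv, hvu⟩ := hE
  have hlen := len6 S
  -- an index for every label, the first one for the marked labels
  let idx : Lab → Fin (labs (sysG S)).length := fun l =>
    if hl : l ∈ labs (sysG S) then ⟨(labs (sysG S)).idxOf l, List.idxOf_lt_length_of_mem hl⟩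
    else i0 (sysG S)
  have hidx : ∀ l ∈ labs (sysG S), (labs (sysG S))[idx l] = l := by
    intro l hl
    simp only [idx, dif_pos hl]
    exact List.getElem_idxOf (List.idxOf_lt_length_of_mem hl)
  obtain ⟨L, hL⟩ := labs_sysG S
  have mX : pX ∈ labs (sysG S) := by rw [hL]; simp
  have mY : pY ∈ labs (sysG S) := by rw [hL]; simp
  have mu : pu 66 ∈ labs (sysG S) := by rw [hL]; simp
  have mr : pr 66 ∈ labs (sysG S) := by rw [hL]; simp
  have iX : idx pX = i3 (sysG S) := by
    simp only [idx, dif_pos mX, i3, Fin.mk.injEq]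
    rw [hL]; rfl
  have iY : idx pY = i0 (sysG S) := by
    simp only [idx, dif_pos mY, i0, Fin.mk.injEq]
    rw [hL]; rfl
  have iu : idx (pu 66) = j4 S := by
    simp only [idx, dif_pos mu, j4, Fin.mk.injEq]
    rw [hL]; rfl
  have ir : idx (pr 66) = j5 S := by
    simp only [idx, dif_pos mr, j5, Fin.mk.injEq]
    rw [hL]; rfl
  have hcfg := cfg_of_rep h hv hidx
  obtain ⟨w, hw, hcr⟩ := wires_of_cfg (distinct_sysG S) hcfg
  have hw66 := hcr 66 mu mr
  obtain ⟨v', hv', h1'⟩ := sound hw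
  refine ⟨v', hv', ?_⟩
  have e66 : wv 1 2 = 66 := rfl
  rw [h1', e66, hw66]
  have q0 : v (idx pX) = ut t 0 := by rw [iX]; exact hvu 0
  have q1 : v (idx pY) = ut t 1 := by rw [iY]; exact hvu 1
  have q2 : v (idx (pu 66)) = ut t 2 := by rw [iu]; exact hvu 2
  have q3 : v (idx (pr 66)) = ut t 3 := by rw [ir]; exact hvu 3
  have hO : v (idx pO) 2 ≠ 0 := by
    intro h2
    have := (hcfg pX mX pY mY pO (by rw [hL]; simp)).1 (by
      simp only [q0, q1, det3, ut, h2]
      simp [h2])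
    rw [TaskW.nd pX pY pO (by decide)] at this
    exact absurd this (by decide)
  simp only [crw, cr, q0, q1, q2, q3, det3, ut]
  simp
  field_simp


theorem ext_of_sat {S : List ER.Con} {M : Matroid (Fin (labs (sysG S)).length)}
    (h : IsM (sysG S) M) (hsat : ∀ t : ℚ, t ≠ 0 → t ≠ 1 →
      ∃ v : ℕ → ℚ, (∀ c ∈ S, HoldsQ v c) ∧ v 1 = t)
    {u : Fin 4 → Fin 3 → ℚ} (hu : RepU M (mk S) u) : ExtU M (mk S) u := by
  have hpair : ∀ i j : Fin 4, i ≠ j → LinearIndepOn ℚ u {i, j} := by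
    intro i j hij
    refine (hu {i, j}).1 ?_
    rw [Set.image_pair]
    exact ind_pairs h i j hij
  have hp : ∀ i j : Fin 4, i ≠ j → ∀ c d : ℚ, c • u i + d • u j = 0 → c = 0 ∧ d = 0 :=
    fun i j hij => (LinearIndepOn.pair_iff u hij).1 (hpair i j hij)
  have hspan : ∀ k : Fin 4, k ≠ 0 → k ≠ 1 → ∃ a b : ℚ, a • u 0 + b • u 1 = u k := by
    intro k hk0 hk1
    have h1 : ¬ LinearIndepOn ℚ u (insert k {0, 1}) := by
      intro hl
      have := (hu (insert k {0, 1})).2 hl
      rw [Set.image_insert_eq, Set.image_pair] at this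
      exact dep_triples h k 0 1 hk0 hk1 (by decide) this
    rw [linearIndepOn_insert (by simp [hk0, hk1])] at h1
    have h2 : u k ∈ Submodule.span ℚ (u '' {0, 1}) := by
      by_contra hn
      exact h1 ⟨hpair 0 1 (by decide), hn⟩
    rw [Set.image_pair, Submodule.mem_span_pair] at h2
    exact h2
  obtain ⟨a, b, h2⟩ := hspan 2 (by decide) (by decide)
  obtain ⟨a', b', h3⟩ := hspan 3 (by decide) (by decide)
  have ha : a ≠ 0 := by
    rintro rfl
    have := hp 1 2 (by decide) b (-1) (by rw [← h2]; simp)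
    norm_num at this
  have hb : b ≠ 0 := by
    rintro rfl
    have := hp 0 2 (by decide) a (-1) (by rw [← h2]; simp)
    norm_num at this
  have ha' : a' ≠ 0 := by
    rintro rfl
    have := hp 1 3 (by decide) b' (-1) (by rw [← h3]; simp)
    norm_num at this
  have hb' : b' ≠ 0 := by
    rintro rfl
    have := hp 0 3 (by decide) a' (-1) (by rw [← h3]; simp)
    norm_num at this
  have hne : b' * a ≠ a' * b := by
    intro he
    have := hp 2 3 (by decide) a' (-a) (by
      rw [← h2, ← h3]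
      have : a' • (a • u 0 + b • u 1) + -a • (a' • u 0 + b' • u 1) =
          (a' * b - b' * a) • u 1 := by
        module
      rw [this, he, sub_self, zero_smul])
    exact ha' this.1
  have hd : a' * b ≠ 0 := mul_ne_zero ha' hb
  obtain ⟨v, hv, hv1⟩ := hsat (b' * a / (a' * b)) (div_ne_zero (mul_ne_zero hb' ha) hd)
    (fun h1 => hne ((div_eq_one_iff_eq hd).1 h1))
  have ht0 : v 1 ≠ 0 := by rw [hv1]; exact div_ne_zero (mul_ne_zero hb' ha) hd
  have ht1 : v 1 ≠ 1 := by rw [hv1]; exact fun h1 => hne ((div_eq_one_iff_eq hd).1 h1)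
  obtain ⟨w, hw, hw1⟩ := complete hv ht0 ht1
  obtain ⟨p, hcfg, pX', pY', pO', hk⟩ := cfg_of_wires _ w hw
  obtain ⟨C, hu66, hr66⟩ := hk 66
  obtain ⟨L, hL⟩ := labs_sysG S
  have hC : C ≠ 0 := by
    rintro rfl
    have := (hcfg pX (by rw [hL]; simp) (pu 66) (by rw [hL]; simp) pO (by rw [hL]; simp)).1
      (by rw [pX', hu66, pO']; simp [det3])
    rw [TaskW.nd pX (pu 66) pO (by decide)] at this
    exact absurd this (by decide)
  have e66 : w 66 = b' * a / (a' * b) := by rw [← hv1, ← hw1]; rfl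
  obtain ⟨p', hcfg', q0, q1, q2, q3⟩ := cfg_prescribe hcfg (k := 66) (C := C)
    (t := b' * a / (a' * b)) pX' pY' hu66 (by rw [hr66, e66]) hC (u := u)
    (by
      rw [LinearIndependent.pair_iff]
      exact hp 0 1 (by decide)) ha hb ha' h2.symm h3.symm (by field_simp)
  refine ⟨fun i => p' (labs (sysG S))[i], rep_of_cfg h hcfg', ?_⟩
  intro i
  fin_cases i
  · exact q0
  · exact q1
  · exact q2
  · exact q3

end Pool.Agent.TH588.MX
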