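import Pool.Agent.H881R2.Mat.ToW
import Pool.Agent.H528R2.QDefs

/-!
# Systems with one variable realised by a wire
-/

set_option autoImplicit false

namespace Pool.Agent.TH588.MX

open Pool.Agent.NPC Pool.Agent.H881R2.Mat Pool.Agent.H528R2
open TaskA

theorem holds_of_wires {S : List ER.Con} {w : ℕ → ℚ} (hw : ∀ d ∈ toW S, GOk w d) :
    ∀ c ∈ S, HoldsQ (fun i => w (wv i 0) - w (wv i 1)) c := by
  intro c hc
  obtain ⟨g, hg⟩ := List.mem_iff_getElem?.1 hc
  have hw' : ∀ d ∈ conG c g, GOk w d := fun d hd => hw d (mem_toW.2 ⟨c, g, hg, hd⟩)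
  cases c with
  | one i =>
    rw [conG_one] at hw'
    have h1 := gok_mul (hw' (true, wc g 9, wv i 0, wc g 10) (by simp [oneG]))
    have h2 := gok_mul (hw' (true, wc g 9, wv i 1, wc g 11) (by simp [oneG]))
    have h3 := gok_add (hw' (false, wc g 9, wc g 11, wc g 10) (by simp [oneG]))
    have h4 := gok_ne (hw' (true, wc g 9, wv i 0, wc g 10) (by simp [oneG]))
    simp only at h4
    show w (wv i 0) - w (wv i 1) = 1
    have h5 : w (wc g 9) * (w (wv i 0) - w (wv i 1)) = w (wc g 9) * 1 := by
      linear_combination h1 - h2 - h3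
    exact mul_left_cancel₀ h4 h5
  | add i j k =>
    rw [conG_add] at hw'
    have r1 := rer_val (w := w) (g := g) (s := 0) (i := i)
      fun d hd => hw' d (by simp only [addG, List.mem_append]; tauto)
    have r2 := rer_val (w := w) (g := g) (s := 1) (i := j)
      fun d hd => hw' d (by simp only [addG, List.mem_append]; tauto)
    have r3 := rer_val (w := w) (g := g) (s := 2) (i := k)
      fun d hd => hw' d (by simp only [addG, List.mem_append]; tauto)
    have h1 := gok_add (hw' (false, wc g 0, wc g 7, wc g 9) (by simp [addG]))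
    have h2 := gok_add (hw' (false, wc g 9, wc g 3, wc g 10) (by simp [addG]))
    have h3 := gok_add (hw' (false, wc g 1, wc g 4, wc g 11) (by simp [addG]))
    have h4 := gok_add (hw' (false, wc g 11, wc g 6, wc g 10) (by simp [addG]))
    show (w (wv i 0) - w (wv i 1)) + (w (wv j 0) - w (wv j 1)) = w (wv k 0) - w (wv k 1)
    norm_num at r1 r2 r3
    linarith
  | mul i j k =>
    rw [conG_mul] at hw'
    have r1 := rer_val (w := w) (g := g) (s := 0) (i := i)
      fun d hd => hw' d (by simp only [mulG, List.mem_append]; tauto)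
    have r2 := rer_val (w := w) (g := g) (s := 1) (i := j)
      fun d hd => hw' d (by simp only [mulG, List.mem_append]; tauto)
    have r3 := rer_val (w := w) (g := g) (s := 2) (i := k)
      fun d hd => hw' d (by simp only [mulG, List.mem_append]; tauto)
    have h1 := gok_mul (hw' (true, wc g 0, wc g 3, wc g 12) (by simp [mulG]))
    have h2 := gok_mul (hw' (true, wc g 1, wc g 4, wc g 13) (by simp [mulG]))
    have h3 := gok_mul (hw' (true, wc g 0, wc g 4, wc g 14) (by simp [mulG]))
    have h4 := gok_mul (hw' (true, wc g 1, wc g 3, wc g 15) (by simp [mulG]))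
    have h5 := gok_add (hw' (false, wc g 12, wc g 7, wc g 16) (by simp [mulG]))
    have h6 := gok_add (hw' (false, wc g 16, wc g 13, wc g 17) (by simp [mulG]))
    have h7 := gok_add (hw' (false, wc g 14, wc g 6, wc g 18) (by simp [mulG]))
    have h8 := gok_add (hw' (false, wc g 18, wc g 15, wc g 17) (by simp [mulG]))
    show (w (wv i 0) - w (wv i 1)) * (w (wv j 0) - w (wv j 1)) = w (wv k 0) - w (wv k 1)
    norm_num at r1 r2 r3
    rw [← r1, ← r2, ← r3]
    linear_combination h1 + h2 - h3 - h4 + h5 + h6 - h7 - h8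

/-- three gadgets: the wire `wv 1 2` gets the value of the variable `1` -/
def ext : List Gad := [(false, wv 1 2, wv 1 3, wv 1 4), (false, wv 1 0, wv 1 3, wv 1 5),
  (false, wv 1 4, wv 1 1, wv 1 5)]

/-- the system of wires of a system of constraints, with a wire for the variable `1` -/
def sysG (S : List ER.Con) : List Gad := ext ++ toW S

theorem distinct_sysG (S : List ER.Con) : Distinct (sysG S) := by
  intro d hd
  rcases List.mem_append.1 hd with hd | hd
  · simp only [ext, List.mem_cons, List.not_mem_nil, or_false] at hd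
    rcases hd with rfl | rfl | rfl <;> simp [wv]
  · exact distinct_toW S d hd

theorem sound {S : List ER.Con} {w : ℕ → ℚ} (hw : ∀ d ∈ sysG S, GOk w d) :
    ∃ v : ℕ → ℚ, (∀ c ∈ S, HoldsQ v c) ∧ v 1 = w (wv 1 2) := by
  refine ⟨_, holds_of_wires fun d hd => hw d (List.mem_append_right _ hd), ?_⟩
  have h1 := gok_add (hw (false, wv 1 2, wv 1 3, wv 1 4) (by simp [sysG, ext]))
  have h2 := gok_add (hw (false, wv 1 0, wv 1 3, wv 1 5) (by simp [sysG, ext]))
  have h3 := gok_add (hw (false, wv 1 4, wv 1 1, wv 1 5) (by simp [sysG, ext]))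
  show w (wv 1 0) - w (wv 1 1) = w (wv 1 2)
  linarith

theorem complete {S : List ER.Con} {v : ℕ → ℚ} (hv : ∀ c ∈ S, HoldsQ v c) (h0 : v 1 ≠ 0)
    (h1 : v 1 ≠ 1) : ∃ w : ℕ → ℚ, (∀ d ∈ sysG S, GOk w d) ∧ w (wv 1 2) = v 1 := by
  obtain ⟨a1, a2, a3, a4⟩ := tau_spec (v 1)
  set T := tau (v 1) with hT
  obtain ⟨ζ, hζ⟩ := avoid [0, 1, v 1, -v 1, 1 - v 1, v 1 + T, -(v 1 + T), 1 - (v 1 + T), T - v 1]
  simp only [List.mem_cons, List.not_mem_nil, or_false, forall_eq_or_imp, forall_eq] at hζ
  obtain ⟨z1, z2, z3, z4, z5, z6, z7, z8, z9⟩ := hζ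
  set w : ℕ → ℚ := fun n => if n = 66 then v 1 else if n = 67 then ζ
    else if n = 68 then v 1 + ζ else if n = 69 then v 1 + T + ζ else val v S n with hwdef
  have hoff : ∀ n, n ≠ 66 → n ≠ 67 → n ≠ 68 → n ≠ 69 → w n = val v S n := by
    intro n n1 n2 n3 n4
    simp only [hwdef]
    rw [if_neg n1, if_neg n2, if_neg n3, if_neg n4]
  have w0 : ∀ i, w (wv i 0) = v i + tau (v i) := by
    intro i
    rw [hoff _ (by simp only [wv]; omega) (by simp only [wv]; omega) (by simp only [wv]; omega)
      (by simp only [wv]; omega), val_wv0]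
  have w1 : ∀ i, w (wv i 1) = tau (v i) := by
    intro i
    rw [hoff _ (by simp only [wv]; omega) (by simp only [wv]; omega) (by simp only [wv]; omega)
      (by simp only [wv]; omega), val_wv1]
  have wc' : ∀ g j, j < 32 → w (wc g j) = uu v S g j := by
    intro g j hj
    rw [hoff _ (by simp only [wc]; omega) (by simp only [wc]; omega) (by simp only [wc]; omega)
      (by simp only [wc]; omega), val_wc _ _ _ _ hj]
  have e2 : w (wv 1 2) = v 1 := by simp [hwdef, wv]
  have e3 : w (wv 1 3) = ζ := by simp [hwdef, wv]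
  have e4 : w (wv 1 4) = v 1 + ζ := by simp [hwdef, wv]
  have e5 : w (wv 1 5) = v 1 + T + ζ := by simp [hwdef, wv]
  have s4 : v 1 + ζ ≠ 0 ∧ v 1 + ζ ≠ 1 := ⟨fun h => z4 (by linarith), fun h => z5 (by linarith)⟩
  have s5 : v 1 + T + ζ ≠ 0 ∧ v 1 + T + ζ ≠ 1 :=
    ⟨fun h => z7 (by linarith), fun h => z8 (by linarith)⟩
  refine ⟨w, ?_, e2⟩
  intro d hd
  rcases List.mem_append.1 hd with hd | hd
  · simp only [ext, List.mem_cons, List.not_mem_nil, or_false] at hd
    rcases hd with rfl | rfl | rfl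
    · apply gok_add_of <;> simp only [e2, e3, e4]
      · exact ⟨h0, h1⟩
      · exact ⟨z1, z2⟩
      · exact s4
      · exact fun h => z3 h.symm
    · apply gok_add_of <;> simp only [w0, e3, e5, ← hT]
      · exact ⟨a3, a4⟩
      · exact ⟨z1, z2⟩
      · exact s5
      · exact fun h => z6 h.symm
    · apply gok_add_of <;> simp only [e4, w1, e5, ← hT]
      · exact s4
      · exact ⟨a1, a2⟩
      · exact s5
      · exact fun h => z9 (by linarith)
      · ring
  · obtain ⟨c, g, hg, hd⟩ := mem_toW.1 hd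
    have hc : Loc v c := loc_of_holds (hv c (List.mem_iff_getElem?.2 ⟨g, hg⟩))
    exact uu_spec hg hc w w0 w1 (wc' g) d hd

end Pool.Agent.TH588.MX
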