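import Pool.Agent.TH588.MX.Rep
import Pool.Agent.TH588.MX.Wir

/-!
# Extending representations of a line with four points
-/

set_option autoImplicit false

namespace Pool.Agent.TH588.MX

open Pool.Agent.NPC Pool.Agent.H881R2.Mat Pool.Agent.H528R5
open Pool.Agent.H528R2 (HoldsQ)

/-- the combination of three vectors -/
def lc (A B W x : Fin 3 → ℚ) : Fin 3 → ℚ := fun i => x 0 * A i + x 1 * B i + x 2 * W i

theorem det3_lc (A B W a b c : Fin 3 → ℚ) :
    det3 (lc A B W a) (lc A B W b) (lc A B W c) = det3 A B W * det3 a b c := by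
  unfold det3 lc
  ring

theorem det3_smul (r s t : ℚ) (a b c : Fin 3 → ℚ) :
    det3 (r • a) (s • b) (t • c) = r * s * t * det3 a b c := by
  simp only [det3, Pi.smul_apply, smul_eq_mul]
  ring

theorem exists_third {A B : Fin 3 → ℚ} (h : LinearIndependent ℚ ![A, B]) :
    ∃ W, det3 A B W ≠ 0 := by
  by_contra hn
  push Not at hn
  have h0 := hn ![1, 0, 0]
  have h1 := hn ![0, 1, 0]
  have h2 := hn ![0, 0, 1]
  simp only [det3, Matrix.cons_val_zero, Matrix.cons_val_one, Matrix.cons_val_two,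
    Matrix.head_cons, Matrix.tail_cons] at h0 h1 h2
  rw [LinearIndependent.pair_iff] at h
  by_cases hA : A = 0
  · have := h 1 0 (by simp [hA])
    simp at this
  obtain ⟨i, hi⟩ : ∃ i, A i ≠ 0 := by
    by_contra hc
    push Not at hc
    exact hA (funext hc)
  have := h (B i) (-(A i)) (by
    funext j
    simp only [Pi.add_apply, Pi.smul_apply, smul_eq_mul, Pi.zero_apply]
    fin_cases i <;> fin_cases j <;> simp <;> linarith)
  exact hi (by linarith [this.2])

/-- the images of the labels `pX`, `pY`, `pu 66`, `pr 66` can be prescribed, up to the cross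
ratio -/
theorem cfg_prescribe {G : List Gad} {p : Lab → Fin 3 → ℚ} (hp : Cfg G p) {k : ℕ} {C t : ℚ}
    (hX : p pX = ![1, 0, 0]) (hY : p pY = ![0, 1, 0]) (hu : p (pu k) = ![1, C, 0])
    (hr : p (pr k) = ![1, C * t, 0]) (hC : C ≠ 0) {u : Fin 4 → Fin 3 → ℚ}
    (hli : LinearIndependent ℚ ![u 0, u 1]) {a b a' b' : ℚ} (ha : a ≠ 0) (hb : b ≠ 0)
    (ha' : a' ≠ 0) (h2 : u 2 = a • u 0 + b • u 1) (h3 : u 3 = a' • u 0 + b' • u 1)
    (ht : b' * a = t * (a' * b)) :
    ∃ p', Cfg G p' ∧ p' pX = u 0 ∧ p' pY = u 1 ∧ p' (pu k) = u 2 ∧ p' (pr k) = u 3 := by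
  classical
  obtain ⟨W, hW⟩ := exists_third hli
  let lam : Lab → ℚ := fun l => if l = pX then 1 / a else if l = pY then C / b else
    if l = pr k then a' / a else 1
  have hlam : ∀ l, lam l ≠ 0 := by
    intro l
    simp only [lam]
    split_ifs
    · exact div_ne_zero one_ne_zero ha
    · exact div_ne_zero hC hb
    · exact div_ne_zero ha' ha
    · exact one_ne_zero
  let A : Fin 3 → ℚ := a • u 0
  let B : Fin 3 → ℚ := (b / C) • u 1
  have hdet : det3 A B W ≠ 0 := by
    have : det3 A B W = det3 (a • u 0) ((b / C) • u 1) ((1 : ℚ) • W) := by rw [one_smul]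
    rw [this, det3_smul]
    exact mul_ne_zero (mul_ne_zero (mul_ne_zero ha (div_ne_zero hb hC)) one_ne_zero) hW
  refine ⟨fun l => lam l • lc A B W (p l), ?_, ?_, ?_, ?_, ?_⟩
  · intro l₁ m₁ l₂ m₂ l₃ m₃
    rw [det3_smul, det3_lc, ← hp l₁ m₁ l₂ m₂ l₃ m₃, mul_eq_zero, or_iff_right
      (mul_ne_zero (mul_ne_zero (hlam _) (hlam _)) (hlam _)), mul_eq_zero, or_iff_right hdet]
  · have e : lam pX = 1 / a := by simp [lam]
    funext i
    simp only [e, hX, lc, Pi.smul_apply, smul_eq_mul, Matrix.cons_val_zero, Matrix.cons_val_one,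
      Matrix.cons_val_two, Matrix.head_cons, Matrix.tail_cons, A]
    field_simp
    ring
  · have e : lam pY = C / b := by simp [lam, pX, pY]
    funext i
    simp only [e, hY, lc, Pi.smul_apply, smul_eq_mul, Matrix.cons_val_zero, Matrix.cons_val_one,
      Matrix.cons_val_two, Matrix.head_cons, Matrix.tail_cons, B]
    field_simp
    ring
  · have e : lam (pu k) = 1 := by simp [lam, pX, pY, pu, pr]
    funext i
    simp only [e, hu, lc, Pi.smul_apply, smul_eq_mul, Matrix.cons_val_zero, Matrix.cons_val_one,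
      Matrix.cons_val_two, Matrix.head_cons, Matrix.tail_cons, A, B, h2, Pi.add_apply]
    field_simp
    ring
  · have e : lam (pr k) = a' / a := by simp [lam, pX, pY, pr]
    funext i
    simp only [e, hr, lc, Pi.smul_apply, smul_eq_mul, Matrix.cons_val_zero, Matrix.cons_val_one,
      Matrix.cons_val_two, Matrix.head_cons, Matrix.tail_cons, A, B, h3, Pi.add_apply]
    have e1 : a' / a * (1 * (a * u 0 i) + C * t * (b / C * u 1 i) + 0 * W i) =
        a' * u 0 i + (t * (a' * b)) / a * u 1 i := by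
      field_simp
      ring
    rw [e1, ← ht]
    field_simp

theorem labs_sysG (S : List ER.Con) : ∃ L : List Lab, labs (sysG S) =
    [pY, pO, pE, pX, pu 66, pr 66] ++ L := ⟨_, rfl⟩

end Pool.Agent.TH588.MX
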