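import Pool.Agent.TH588.MX.Sys
import Pool.Agent.TH588.UQ.Main

/-!
# Extending rational representations of a four-point line is undecidable
-/

set_option autoImplicit false

namespace Pool.Agent.TH588.MX

open Pool.Agent.NPC Pool.Agent.H881R2.Mat Pool.Agent.H528R5 Pool.Agent.TH588.UQ
open Pool.Agent.H528R2 (HoldsQ DioQ)
open Pool.Agent.H528R2

theorem eRank_of {G : List Gad} {M : Matroid (Fin (labs G).length)} (h : IsM G M) :
    M.eRank = 3 := by
  obtain ⟨B, hBase⟩ := M.exists_isBase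
  obtain ⟨F, rfl, hc, -⟩ := h.base_finset hBase
  rw [← hBase.encard_eq_eRank, Set.encard_coe_eq_coe_finsetCard, hc]
  rfl

theorem bases_of {G : List Gad} {M : Matroid (Fin (labs G).length)} (h : IsM G M)
    (B : Set (Fin (labs G).length)) :
    M.IsBase B ↔ ∃ l ∈ (inst G).2, ∀ i : Fin (labs G).length, i ∈ B ↔ (i : ℕ) ∈ l := by
  classical
  have hf : (B.toFinset : Set (Fin (labs G).length)) = B := by simp
  have h1 := (h.hB B.toFinset).1
  rw [hf] at h1
  rw [h1]
  simp [Listed]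

theorem u24 {S : List ER.Con} {M : Matroid (Fin (labs (sysG S)).length)} (h : IsM (sysG S) M)
    (I : Set (Fin 4)) : M.Indep (mk S '' I) ↔ I.encard ≤ 2 := by
  rcases small_or_triple I with ⟨i, j, hij, hI⟩ | ⟨i, j, k, hij, hik, hjk, hI⟩
  · refine iff_of_true ?_ ?_
    · refine (ind_pairs h i j hij).subset ?_
      rw [← Set.image_pair]
      exact Set.image_mono hI
    · refine (Set.encard_le_encard hI).trans ?_
      rw [Set.encard_pair hij]
  · refine iff_of_false ?_ ?_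
    · intro hM
      refine dep_triples h i j k hij hik hjk (hM.subset ?_)
      have e : ({mk S i, mk S j, mk S k} : Set _) = mk S '' {i, j, k} := by
        rw [Set.image_insert_eq, Set.image_pair]
      rw [e]
      exact Set.image_mono hI
    · intro hle
      have h1 := (Set.encard_le_encard hI).trans hle
      rw [Set.encard_insert_of_notMem (by simp [hij, hik]), Set.encard_pair hjk] at h1
      exact absurd h1 (by decide)

/-- the relation with the value `2` added -/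
theorem dio_two (Y : Pool.Agent.Helper707.Rel.Sys) :
    DioQ 2 (fun x => x 1 = 2 ∨ RR Y (x 0) (x 1)) := by
  have h : Dio.DQ (fun v : ℕ → ℚ => v 1 = 2 ∨ RR Y (v 0) (v 1)) :=
    ((Dio.DQ.eq (Dio.PF.var 1) (Dio.PF.lit 2)).or (dq_RR Y (Dio.PF.var 0) (Dio.PF.var 1))).congr
      fun v => by norm_num
  exact Dio.DQ.dioQ h

/-- an interval contains an interval which avoids `0`, `1`, `2` -/
theorem shrink (α β : ℚ) (h : α < β) : ∃ α' β', α' < β' ∧ α ≤ α' ∧ β' ≤ β ∧
    ∀ t, α' < t → t < β' → t ≠ 0 ∧ t ≠ 1 ∧ t ≠ 2 := by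
  have step : ∀ (z : ℚ) (α β : ℚ), α < β → ∃ α' β', α' < β' ∧ α ≤ α' ∧ β' ≤ β ∧
      ∀ t, α' < t → t < β' → t ≠ z := by
    intro z α β h
    rcases le_or_gt z α with hz | hz
    · exact ⟨α, β, h, le_rfl, le_rfl, fun t h1 _ => (hz.trans_lt h1).ne'⟩
    · exact ⟨α, min β z, lt_min h hz, le_rfl, min_le_left _ _,
        fun t _ h2 => (h2.trans_le (min_le_right _ _)).ne⟩
  obtain ⟨a, b, h1, h2, h3, h4⟩ := step 0 α β h
  obtain ⟨a', b', h1', h2', h3', h4'⟩ := step 1 a b h1
  obtain ⟨a'', b'', h1'', h2'', h3'', h4''⟩ := step 2 a' b' h1'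
  refine ⟨a'', b'', h1'', h2.trans (h2'.trans h2''), h3''.trans (h3'.trans h3), fun t ht ht' => ?_⟩
  exact ⟨h4 t ((h2'.trans h2'').trans_lt ht) (ht'.trans_le (h3''.trans h3')),
    h4' t (h2''.trans_lt ht) (ht'.trans_le h3''), h4'' t ht ht'⟩

/-- An instance: a number `n` and a list of sets of numbers less than `n` (bases), and four
numbers less than `n`. -/
abbrev Inst : Type := (ℕ × List (List ℕ)) × (ℕ × ℕ × ℕ × ℕ)

/-- The instance `I` describes the matroid `M` on `Fin n`, given by the list of its bases, and the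
four elements `e`. The matroid has rank `3` and it is representable over `ℚ`, the four elements are
different and the restriction to them is the uniform matroid of rank `2`. -/
structure Describes (I : Inst) (M : Matroid (Fin I.1.1)) (e : Fin 4 → Fin I.1.1) : Prop where
  ground : M.E = Set.univ
  bases : ∀ B : Set (Fin I.1.1), M.IsBase B ↔ ∃ l ∈ I.1.2, ∀ i : Fin I.1.1, i ∈ B ↔ (i : ℕ) ∈ l
  marks : ((e 0 : ℕ), (e 1 : ℕ), (e 2 : ℕ), (e 3 : ℕ)) = I.2
  rank : M.eRank = 3
  representable : ∃ v : Fin I.1.1 → Fin 3 → ℚ, ∀ J : Set (Fin I.1.1),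
    M.Indep J ↔ LinearIndepOn ℚ v J
  injective : Function.Injective e
  line : ∀ J : Set (Fin 4), M.Indep (e '' J) ↔ J.encard ≤ 2

theorem main (P : ℕ → Prop) (hP : REPred P) : ∃ f : ℕ → Inst, Computable f ∧ ∀ a : ℕ,
    ∃ (M : Matroid (Fin (f a).1.1)) (e : Fin 4 → Fin (f a).1.1), Describes (f a) M e ∧
      (¬ P a → ∀ u, RepU M e u → ExtU M e u) ∧
      (P a → ∀ α β : ℚ, α < β → ∃ t : ℚ, α < t ∧ t < β ∧ RepU M e (ut t) ∧
        ¬ ExtU M e (ut t)) := by
  obtain ⟨Y, s, p, hm, hY⟩ := exists_universal_sys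
  obtain ⟨h, hh, hhP⟩ := hY P hP
  obtain ⟨S₀, hS₀⟩ := dio_two Y
  obtain ⟨B, hB2, hB⟩ := exists_bound S₀
  have hg : Computable fun a => 11 ^ (s * p ^ h a) :=
    computable_pow (computable_mul (computable_pow hh p) s) 11
  refine ⟨fun a => (inst (sysG (sysC S₀ B (11 ^ (s * p ^ h a)))), (3, 0, 4, 5)), ?_, fun a => ?_⟩
  · exact Computable.pair ((primrec_sys S₀ B).to_comp.comp hg) (Computable.const _)
  set S := sysC S₀ B (11 ^ (s * p ^ h a)) with hS
  have key := sysC_iff hS₀ hB2 hB (11 ^ (s * p ^ h a))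
  obtain ⟨M, hM⟩ : ∃ M : Matroid (Fin (labs (sysG S)).length), IsM (sysG S) M := by
    obtain ⟨M, hE, hB⟩ := isMat3_inst (sysG S) (distinct_sysG S)
    exact ⟨M, hE, hB⟩
  refine ⟨M, mk S, ⟨hM.hE, bases_of hM, rfl, eRank_of hM, ?_, mk_injective, u24 hM⟩, ?_, ?_⟩
  · obtain ⟨v, hv, hv1⟩ := (key 2).2 (Or.inl rfl)
    obtain ⟨w, hw, -⟩ := complete hv (by rw [hv1]; norm_num) (by rw [hv1]; norm_num)
    exact hM.representable (planeRep_of_wsat _ ⟨w, hw⟩)
  · intro hPa u hu
    refine ext_of_sat hM (fun t _ _ => (key t).2 (Or.inr ?_)) hu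
    have := RR_all Y (s * p ^ h a) hm (fun hH => hPa ((hhP a).1 hH)) t
    simpa using this
  · intro hPa α β hαβ
    obtain ⟨d, hd, hR⟩ := RR_not Y _ ((hhP a).2 hPa)
    obtain ⟨α', β', h1, h2, h3, h4⟩ := shrink α β hαβ
    obtain ⟨t, h5, h6, h7, h8⟩ := dense_good hd h1
    obtain ⟨t0, t1, t2⟩ := h4 t h5 h6
    refine ⟨t, h2.trans_lt h5, h6.trans_le h3, repU_ut hM t0 t1, fun hE => ?_⟩
    rcases (key t).1 (ext_ut hM t0 t1 hE) with h9 | h9
    · exact t2 h9
    · exact hR t h7 h8 (by simpa using h9)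

end Pool.Agent.TH588.MX
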