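import Mathlib
import Pool.Agent.H881R2.Mat.Defs

/-!
# The matroid attached to a system of gadgets is primitive recursive (helper757 for helper588)
-/

set_option autoImplicit false

namespace Pool.Agent.TH588.MX

open Pool.Agent.NPC Pool.Agent.H881R2.Mat

attribute [local fun_prop] Primrec

section closure

variable {α β γ : Type*} [Primcodable α] [Primcodable β] [Primcodable γ]

theorem prid : Primrec (fun x : α => x) := Primrec.id
theorem prconst (b : β) : Primrec (fun _ : α => b) := Primrec.const b
theorem prcomp {f : β → γ} {g : α → β} (hf : Primrec f) (hg : Primrec g) :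
    Primrec (fun x => f (g x)) := hf.comp hg
theorem prfst {f : α → β × γ} (hf : Primrec f) : Primrec (fun x => (f x).1) :=
  Primrec.fst.comp hf
theorem prsnd {f : α → β × γ} (hf : Primrec f) : Primrec (fun x => (f x).2) :=
  Primrec.snd.comp hf
theorem prpair {f : α → β} {g : α → γ} (hf : Primrec f) (hg : Primrec g) :
    Primrec (fun x => (f x, g x)) := hf.pair hg
theorem pradd {f g : α → ℕ} (hf : Primrec f) (hg : Primrec g) :
    Primrec (fun x => f x + g x) := Primrec.nat_add.comp hf hg
theorem prmul {f g : α → ℕ} (hf : Primrec f) (hg : Primrec g) :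
    Primrec (fun x => f x * g x) := Primrec.nat_mul.comp hf hg
theorem prappend {f g : α → List β} (hf : Primrec f) (hg : Primrec g) :
    Primrec (fun x => f x ++ g x) := Primrec.list_append.comp hf hg
theorem prcons {f : α → β} {g : α → List β} (hf : Primrec f) (hg : Primrec g) :
    Primrec (fun x => f x :: g x) := Primrec.list_cons.comp hf hg
theorem prlength {f : α → List β} (hf : Primrec f) : Primrec (fun x => (f x).length) :=
  Primrec.list_length.comp hf

/-! ### Boolean functions -/

theorem prand {f g : α → Bool} (hf : Primrec f) (hg : Primrec g) :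
    Primrec (fun x => f x && g x) := Primrec.and.comp hf hg
theorem pror {f g : α → Bool} (hf : Primrec f) (hg : Primrec g) :
    Primrec (fun x => f x || g x) := Primrec.or.comp hf hg
theorem prnot {f : α → Bool} (hf : Primrec f) : Primrec (fun x => !(f x)) :=
  Primrec.not.comp hf
theorem prdecide {p : α → Prop} [DecidablePred p] (h : PrimrecPred p) :
    Primrec (fun a => decide (p a)) := h.decide
theorem preq [DecidableEq β] {f g : α → β} (hf : Primrec f) (hg : Primrec g) :
    Primrec (fun a => decide (f a = g a)) := prdecide (Primrec.eq.comp hf hg)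
theorem prlt {f g : α → ℕ} (hf : Primrec f) (hg : Primrec g) :
    Primrec (fun a => decide (f a < g a)) := prdecide (Primrec.nat_lt.comp hf hg)
theorem primrecPred_of {f : α → Bool} (hf : Primrec f) : PrimrecPred (fun a => f a = true) :=
  Primrec.eq.comp hf (Primrec.const true)
theorem prif {c : α → Bool} {f g : α → β} (hc : Primrec c) (hf : Primrec f) (hg : Primrec g) :
    Primrec (fun a => if c a = true then f a else g a) :=
  Primrec.ite (primrecPred_of hc) hf hg
theorem prifeq {c d : α → ℕ} {f g : α → β} (hc : Primrec c) (hd : Primrec d)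
    (hf : Primrec f) (hg : Primrec g) :
    Primrec (fun a => if c a = d a then f a else g a) :=
  Primrec.ite (Primrec.eq.comp hc hd) hf hg

theorem prmem {f : α → β} {l : α → List β} [DecidablePred fun a => f a ∈ l a]
    (hf : Primrec f) (hl : Primrec l) : Primrec (fun a => decide (f a ∈ l a)) := by
  have h : PrimrecRel (fun (x y : β) => x = y) := Primrec.eq
  refine prdecide (((h.exists_mem_list).comp hl hf).of_eq fun a => ?_)
  simp

theorem prany {l : α → List β} {p : α → β → Bool} (hl : Primrec l)
    (hp : Primrec (fun x : α × β => p x.1 x.2)) : Primrec (fun a => (l a).any (p a)) := by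
  have hR : PrimrecRel (fun (i : β) (a : α) => p a i = true) :=
    primrecPred_of (hp.comp (Primrec.snd.pair Primrec.fst))
  have h := (hR.exists_mem_list).comp hl Primrec.id
  obtain ⟨i, h⟩ := h
  refine h.of_eq fun a => ?_
  rw [Bool.eq_iff_iff]
  simp

/-! ### lists -/

theorem prflatMap {l : α → List β} {g : α → β → List γ} (hl : Primrec l)
    (hg : Primrec (fun x : α × β => g x.1 x.2)) : Primrec (fun a => (l a).flatMap (g a)) :=
  Primrec.list_flatMap hl hg

omit [Primcodable β] in
theorem zipIdx_foldl (l : List β) (acc : List (β × ℕ)) :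
    l.foldl (fun acc b => acc ++ [(b, acc.length)]) acc = acc ++ l.zipIdx acc.length := by
  induction l generalizing acc with
  | nil => simp
  | cons b l ih =>
    rw [List.foldl_cons, ih]
    simp [List.zipIdx_cons]

theorem przipIdx {l : α → List β} (hl : Primrec l) : Primrec (fun a => (l a).zipIdx) := by
  have h : Primrec (fun a => (l a).foldl (fun (acc : List (β × ℕ)) b => acc ++ [(b, acc.length)])
      []) := by
    refine Primrec.list_foldl (h := fun _ p => p.1 ++ [(p.2, p.1.length)]) hl
      (Primrec.const []) ?_
    have h2 : Primrec (fun x : α × (List (β × ℕ) × β) => x.2) := Primrec.snd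
    exact prappend (prfst h2) (prcons (prpair (prsnd h2) (prlength (prfst h2)))
      (Primrec.const []))
  refine h.of_eq fun a => ?_
  rw [zipIdx_foldl]
  simp

end closure

attribute [local fun_prop] prid prconst prcomp prfst prsnd prpair pradd prmul prappend prcons
  prlength prand pror prnot preq prlt prif prifeq przipIdx

/-- the gadgets of a constraint given by its code, as in `conG` -/
def conC (c : ℕ × ℕ × ℕ × ℕ) (g : ℕ) : List Gad :=
  if c.1 = 0 then oneG g c.2.1
  else if c.1 = 1 then addG g c.2.1 c.2.2.1 c.2.2.2
  else mulG g c.2.1 c.2.2.1 c.2.2.2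

section gadgets

variable {α : Type*} [Primcodable α]

theorem pr_wv {i : α → ℕ} (hi : Primrec i) (j : ℕ) : Primrec (fun a => wv (i a) j) := by
  unfold wv; fun_prop

theorem pr_wc {i : α → ℕ} (hi : Primrec i) (j : ℕ) : Primrec (fun a => wc (i a) j) := by
  unfold wc; fun_prop

attribute [local fun_prop] pr_wv pr_wc

theorem pr_rer {g i : α → ℕ} (hg : Primrec g) (hi : Primrec i) (s : ℕ) :
    Primrec (fun a => rer (g a) s (i a)) := by unfold rer; fun_prop

attribute [local fun_prop] pr_rer

theorem pr_oneG {g i : α → ℕ} (hg : Primrec g) (hi : Primrec i) :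
    Primrec (fun a => oneG (g a) (i a)) := by unfold oneG; fun_prop

theorem pr_addG {g i j k : α → ℕ} (hg : Primrec g) (hi : Primrec i)
    (hj : Primrec j) (hk : Primrec k) :
    Primrec (fun a => addG (g a) (i a) (j a) (k a)) := by
  unfold addG; fun_prop

theorem pr_mulG {g i j k : α → ℕ} (hg : Primrec g) (hi : Primrec i)
    (hj : Primrec j) (hk : Primrec k) :
    Primrec (fun a => mulG (g a) (i a) (j a) (k a)) := by
  unfold mulG; fun_prop

attribute [local fun_prop] pr_oneG pr_addG pr_mulG

section labels

variable {g a b : α → ℕ}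

theorem pr_pu (ha : Primrec a) : Primrec (fun x => pu (a x)) := by unfold pu; fun_prop
theorem pr_pr (ha : Primrec a) : Primrec (fun x => pr (a x)) := by unfold pr; fun_prop
theorem pr_pU (hg : Primrec g) : Primrec (fun x => pU (g x)) := by unfold pU; fun_prop
theorem pr_pV (hg : Primrec g) (ha : Primrec a) : Primrec (fun x => pV (g x) (a x)) := by
  unfold pV; fun_prop
theorem pr_pK (hg : Primrec g) (ha : Primrec a) : Primrec (fun x => pK (g x) (a x)) := by
  unfold pK; fun_prop
theorem pr_pA (hg : Primrec g) (ha : Primrec a) : Primrec (fun x => pA (g x) (a x)) := by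
  unfold pA; fun_prop
theorem pr_pN (hg : Primrec g) (ha : Primrec a) : Primrec (fun x => pN (g x) (a x)) := by
  unfold pN; fun_prop
theorem pr_pH (hg : Primrec g) (ha : Primrec a) (hb : Primrec b) :
    Primrec (fun x => pH (g x) (a x) (b x)) := by
  unfold pH; fun_prop

end labels

attribute [local fun_prop] pr_pu pr_pr pr_pU pr_pV pr_pK pr_pA pr_pN pr_pH

theorem pr_glabs {d : α → Gad} {g : α → ℕ} (hd : Primrec d) (hg : Primrec g) :
    Primrec (fun a => glabs (d a) (g a)) := by
  unfold glabs
  fun_prop

theorem pr_glines {d : α → Gad} {g : α → ℕ} (hd : Primrec d) (hg : Primrec g) :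
    Primrec (fun a => glines (d a) (g a)) := by
  unfold glines
  fun_prop

theorem pr_labs {G : α → List Gad} (hG : Primrec G) : Primrec (fun a => labs (G a)) := by
  unfold labs
  refine prappend (by fun_prop) (prflatMap (by fun_prop) ?_)
  exact pr_glabs (by fun_prop) (by fun_prop)

theorem pr_lines {G : α → List Gad} (hG : Primrec G) : Primrec (fun a => lines (G a)) := by
  unfold lines
  refine prflatMap (by fun_prop) ?_
  exact pr_glines (by fun_prop) (by fun_prop)

attribute [local fun_prop] pr_labs pr_lines

section

variable {l l₁ l₂ l₃ : α → Lab} {G : α → List Gad}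

theorem pr_onP (hl : Primrec l) : Primrec (fun a => onP (l a)) := by unfold onP; fun_prop
theorem pr_onQ (hl : Primrec l) : Primrec (fun a => onQ (l a)) := by unfold onQ; fun_prop
theorem pr_onR (hl : Primrec l) : Primrec (fun a => onR (l a)) := by unfold onR; fun_prop
theorem pr_onS (hl : Primrec l) : Primrec (fun a => onS (l a)) := by unfold onS; fun_prop

attribute [local fun_prop] pr_onP pr_onQ pr_onR pr_onS

theorem pr_dep (hG : Primrec G) (h₁ : Primrec l₁) (h₂ : Primrec l₂) (h₃ : Primrec l₃) :
    Primrec (fun a => dep (G a) (l₁ a) (l₂ a) (l₃ a)) := by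
  have hany : Primrec (fun a => (lines (G a)).any
      (fun L => decide (l₁ a ∈ L) && (decide (l₂ a ∈ L) && decide (l₃ a ∈ L)))) := by
    refine prany (by fun_prop) ?_
    exact prand (prmem (h₁.comp Primrec.fst) Primrec.snd)
      (prand (prmem (h₂.comp Primrec.fst) Primrec.snd) (prmem (h₃.comp Primrec.fst) Primrec.snd))
  unfold dep
  fun_prop

end

end gadgets

attribute [local fun_prop] pr_oneG pr_addG pr_mulG pr_labs

theorem primrec_conC : Primrec₂ conC := by
  unfold Primrec₂ conC
  fun_prop

theorem primrec_inst : Primrec (inst : List Gad → ℕ × List (List ℕ)) := by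
  have hfil : ∀ {α β γ : Type} [Primcodable α] [Primcodable β] [Primcodable γ]
      {l : α → List β} {p : α → β → Bool} {f : α → β → γ}, Primrec l →
      Primrec (fun x : α × β => p x.1 x.2) → Primrec (fun x : α × β => f x.1 x.2) →
      Primrec (fun a => ((l a).filter (p a)).map (f a)) := by
    intro α β γ _ _ _ l p f hl hp hf
    have h : Primrec (fun a => (l a).flatMap (fun b => if p a b = true then [f a b] else [])) := by
      refine prflatMap hl ?_
      fun_prop
    refine h.of_eq fun a => ?_
    induction l a with
    | nil => simp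
    | cons b l ih =>
      rw [List.flatMap_cons, ih]
      by_cases hb : p a b = true <;> simp [hb]
  unfold inst
  refine prpair (by fun_prop) ?_
  refine prflatMap (by fun_prop) ?_
  refine prflatMap (by fun_prop) ?_
  refine hfil (by fun_prop) ?_ (by fun_prop)
  refine prand (by fun_prop) (prnot ?_)
  exact pr_dep (by fun_prop) (by fun_prop) (by fun_prop) (by fun_prop)

end Pool.Agent.TH588.MX
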