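import Pool.Agent.H881R2.Mat.Wires
import Pool.Agent.H881R2.Mat.Generic4
import Pool.Agent.H528R5.MatRep

/-!
# Plane configurations with prescribed cross ratio
-/

set_option autoImplicit false

namespace Pool.Agent.TH588.MX

open Pool.Agent.NPC Pool.Agent.H881R2.Mat Pool.Agent.H528R5

/-- prescribed collinearities -/
def Cfg (G : List Gad) (p : Lab → Fin 3 → ℚ) : Prop :=
  ∀ l₁ ∈ labs G, ∀ l₂ ∈ labs G, ∀ l₃ ∈ labs G,
    (det3 (p l₁) (p l₂) (p l₃) = 0 ↔ dep G l₁ l₂ l₃ = true)

/-- cross ratio of four points of a line, seen from a fifth point -/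
def cr (X Y U R O : Fin 3 → ℚ) : ℚ := det3 X R O * det3 Y U O / (det3 X U O * det3 Y R O)

/-- cross ratio at the wire `a` -/
def crw (p : Lab → Fin 3 → ℚ) (a : ℕ) : ℚ := cr (p pX) (p pY) (p (pu a)) (p (pr a)) (p pO)

open TaskW in
/-- normalisation, with control of the determinants -/
theorem exists_nrm' {G : List Gad} {p : Lab → Fin 3 → ℚ} (hp : Cfg G p) :
    ∃ q, Nrm G q ∧ ∃ κ : ℚ, κ ≠ 0 ∧ ∀ a b c : Lab,
      det3 (q a) (q b) (q c) = κ * det3 (p a) (p b) (p c) := by
  have hD : det3 (p pX) (p pY) (p pO) ≠ 0 := fun h => by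
    have := (hp _ (mX G) _ (mY G) _ (mO G)).1 h
    rw [nd pX pY pO (by decide)] at this
    exact absurd this (by decide)
  have hE1 : det3 (p pE) (p pY) (p pO) ≠ 0 := fun h => by
    have := (hp _ (mE G) _ (mY G) _ (mO G)).1 h
    rw [nd pE pY pO (by decide)] at this
    exact absurd this (by decide)
  have hE3 : det3 (p pX) (p pY) (p pE) ≠ 0 := fun h => by
    have := (hp _ (mX G) _ (mY G) _ (mE G)).1 h
    rw [nd pX pY pE (by decide)] at this
    exact absurd this (by decide)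
  have hE2 : det3 (p pX) (p pE) (p pO) = 0 := by
    rw [hp _ (mX G) _ (mE G) _ (mO G), H881R2.Mat.dep_iff]
    exact Or.inr (Or.inr (Or.inr (Or.inr (Or.inl ⟨rfl, rfl, rfl⟩))))
  have key : ∀ a b c : Lab,
      det3 (scal (det3 (p pE) (p pY) (p pO)) (det3 (p pX) (p pY) (p pE))
        (cram (p pX) (p pY) (p pO) (p a)))
        (scal (det3 (p pE) (p pY) (p pO)) (det3 (p pX) (p pY) (p pE))
        (cram (p pX) (p pY) (p pO) (p b)))
        (scal (det3 (p pE) (p pY) (p pO)) (det3 (p pX) (p pY) (p pE))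
        (cram (p pX) (p pY) (p pO) (p c))) =
      det3 (p pX) (p pY) (p pO) ^ 2 / (det3 (p pE) (p pY) (p pO) * det3 (p pX) (p pY) (p pE)) *
        det3 (p a) (p b) (p c) := by
    intro a b c
    rw [scal_det, cram_det]
    ring
  have hκ : det3 (p pX) (p pY) (p pO) ^ 2 /
      (det3 (p pE) (p pY) (p pO) * det3 (p pX) (p pY) (p pE)) ≠ 0 :=
    div_ne_zero (pow_ne_zero 2 hD) (mul_ne_zero hE1 hE3)
  refine ⟨fun l => scal (det3 (p pE) (p pY) (p pO)) (det3 (p pX) (p pY) (p pE))
    (cram (p pX) (p pY) (p pO) (p l)), ⟨?_, ?_, ?_, ?_, ?_, ?_, ?_, ?_, ?_, ?_, ?_, ?_, ?_⟩,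
    _, hκ, key⟩
  · intro l₁ h₁ l₂ h₂ l₃ h₃
    rw [key, ← hp l₁ h₁ l₂ h₂ l₃ h₃, mul_eq_zero, or_iff_right hκ]
  · exact div_ne_zero hD hE1
  · exact det3_aab _ _
  · simp [scal, cram, det3_aba]
  · simp [scal, cram, det3_aab]
  · exact hD
  · simp [scal, cram, det3_abb]
  · simp [scal, cram, det3_aba]
  · simp [scal, cram, det3_abb]
  · exact div_ne_zero hD hE3
  · exact div_self hE1
  · exact hE2
  · exact div_self hE3

open TaskW in
theorem ww_eq_crw {G : List Gad} {q : Lab → Fin 3 → ℚ} (N : Nrm G q) {a : ℕ}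
    (h1 : pu a ∈ labs G) (h2 : pr a ∈ labs G) : ww q a = crw q a := by
  have hu := ptR N h1 rfl rfl
  have hr := ptR N h2 rfl rfl
  have hu1 := y_ne N h1 rfl
  have hX := N.X0
  have hY := N.Y1
  have hO := N.O2
  have e1 : det3 (q pX) (q (pr a)) (q pO) = q pX 0 * q (pr a) 1 * q pO 2 := by
    simp only [det3, N.X1, N.X2, N.O0, N.O1, hr.1]; ring
  have e2 : det3 (q pY) (q (pu a)) (q pO) = - (q pY 1 * q (pu a) 0 * q pO 2) := by
    simp only [det3, N.Y0, N.Y2, N.O0, N.O1, hu.1]; ring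
  have e3 : det3 (q pX) (q (pu a)) (q pO) = q pX 0 * q (pu a) 1 * q pO 2 := by
    simp only [det3, N.X1, N.X2, N.O0, N.O1, hu.1]; ring
  have e4 : det3 (q pY) (q (pr a)) (q pO) = - (q pY 1 * q (pr a) 0 * q pO 2) := by
    simp only [det3, N.Y0, N.Y2, N.O0, N.O1, hr.1]; ring
  rw [crw, cr, e1, e2, e3, e4, ww, vR, vR]
  have := hu.2
  have := hr.2
  field_simp

open TaskW in
/-- a configuration gives values of the wires, which are cross ratios -/
theorem wires_of_cfg {G : List Gad} (hG : Distinct G) {p : Lab → Fin 3 → ℚ} (hp : Cfg G p) :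
    ∃ w : ℕ → ℚ, (∀ d ∈ G, GOk w d) ∧ ∀ a : ℕ, pu a ∈ labs G → pr a ∈ labs G →
      w a = crw p a := by
  obtain ⟨q, N, κ, hκ, hk⟩ := exists_nrm' hp
  refine ⟨ww q, fun d hd => gok N hG hd, fun a h1 h2 => ?_⟩
  rw [ww_eq_crw N h1 h2, crw, crw, cr, cr, hk, hk, hk, hk]
  have : κ * det3 (p pX) (p (pr a)) (p pO) * (κ * det3 (p pY) (p (pu a)) (p pO)) =
      (κ * κ) * (det3 (p pX) (p (pr a)) (p pO) * det3 (p pY) (p (pu a)) (p pO)) := by ring
  rw [this]
  have : κ * det3 (p pX) (p (pu a)) (p pO) * (κ * det3 (p pY) (p (pr a)) (p pO)) =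
      (κ * κ) * (det3 (p pX) (p (pu a)) (p pO) * det3 (p pY) (p (pr a)) (p pO)) := by ring
  rw [this, mul_div_mul_left _ _ (mul_ne_zero hκ hκ)]

open Gen Polynomial in
/-- values of the wires give a configuration -/
theorem cfg_of_wires (G : List Gad) (w : ℕ → ℚ) (hw : ∀ d ∈ G, GOk w d) :
    ∃ p : Lab → Fin 3 → ℚ, Cfg G p ∧ p pX = ![1, 0, 0] ∧ p pY = ![0, 1, 0] ∧
      p pO = ![0, 0, 1] ∧ ∀ a : ℕ, ∃ C : ℚ, p (pu a) = ![1, C, 0] ∧ p (pr a) = ![1, C * w a, 0] := by
  classical
  obtain ⟨M, hM⟩ := exists_big G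
  have hG : Good G w M := ⟨hw, hM⟩
  let T : List (Lab × Lab × Lab) := (labs G) ×ˢ ((labs G) ×ˢ (labs G))
  let Ls : List ℚ[X] := (T.map (fun t => dt (vec w M t.1) (vec w M t.2.1) (vec w M t.2.2))).filter
    (fun q => decide (q ≠ 0))
  obtain ⟨B, hB⟩ := exists_point Ls (by
    intro q hq
    have := (List.mem_filter.1 hq).2
    simpa using this)
  refine ⟨fun l i => (vec w M l i).eval B, ?_, ?_, ?_, ?_, ?_⟩
  · intro l₁ h₁ l₂ h₂ l₃ h₃
    have hdet : det3 (fun i => (vec w M l₁ i).eval B) (fun i => (vec w M l₂ i).eval B)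
        (fun i => (vec w M l₃ i).eval B) = (dt (vec w M l₁) (vec w M l₂) (vec w M l₃)).eval B := by
      unfold det3 dt
      simp only [eval_add, eval_sub, eval_mul]
    rw [hdet, H881R2.Mat.dep_iff]
    constructor
    · intro h0
      apply dep_of_dt hG (occ_of_mem h₁) (occ_of_mem h₂) (occ_of_mem h₃)
      by_contra hne
      refine hB _ ?_ h0
      refine List.mem_filter.2 ⟨List.mem_map.2 ⟨(l₁, l₂, l₃), ?_, rfl⟩, by simpa using hne⟩
      exact List.mem_product.2 ⟨h₁, List.mem_product.2 ⟨h₂, h₃⟩⟩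
    · intro hd
      rw [dt_of_dep hG (occ_of_mem h₁) (occ_of_mem h₂) (occ_of_mem h₃) hd, eval_zero]
  · funext i
    fin_cases i <;> simp [vec, vecT, ty, Gen.mv, co, ex, pX]
  · funext i
    fin_cases i <;> simp [vec, vecT, ty, Gen.mv, co, ex, pY]
  · funext i
    fin_cases i <;> simp [vec, vecT, ty, Gen.mv, co, ex, pO]
  · intro a
    refine ⟨B ^ (a + 1), ?_, ?_⟩
    · funext i
      fin_cases i <;> simp [vec, vecT, ty, Gen.mv, co, ex, pu]
    · funext i
      fin_cases i
      · simp [vec, vecT, ty, pr]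
      · simp [vec, vecT, ty, Gen.mv, co, ex, pr]
        ring
      · simp [vec, vecT, ty, pr]

/-- A configuration represents the matroid. -/
theorem rep_of_cfg {G : List Gad} {M : Matroid (Fin (labs G).length)} (h : IsM G M)
    {p : Lab → Fin 3 → ℚ} (hp : Cfg G p) :
    ∀ I : Set (Fin (labs G).length), M.Indep I ↔ LinearIndepOn ℚ (fun i => p (labs G)[i]) I := by
  classical
  have hp' : ∀ i j k : Fin (labs G).length,
      (det3 (p (labs G)[i]) (p (labs G)[j]) (p (labs G)[k]) = 0 ↔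
        dep G (labs G)[i] (labs G)[j] (labs G)[k] = true) := fun i j k =>
    hp _ (List.getElem_mem _) _ (List.getElem_mem _) _ (List.getElem_mem _)
  let v : Fin (labs G).length → Fin 3 → ℚ := fun i => p (labs G)[i]
  have hli : ∀ {i j k : Fin (labs G).length}, i < j → j < k →
      (LinearIndepOn ℚ v ({i, j, k} : Set (Fin (labs G).length)) ↔
        dep G (labs G)[i] (labs G)[j] (labs G)[k] = false) := by
    intro i j k hij hjk
    rw [linearIndepOn_triple v hij hjk, li_iff_det3, ← Bool.not_eq_true, ← hp' i j k]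
  refine fun I => ⟨fun hI => ?_, fun hI => ?_⟩
  · obtain ⟨B, hB, hsub⟩ := Matroid.indep_iff.1 hI
    obtain ⟨F, rfl, hc, hL⟩ := h.base_finset hB
    obtain ⟨i, j, k, hij, hjk, hd, rfl⟩ := (listed_iff G F).1 hL
    refine LinearIndepOn.mono ?_ hsub
    have e : ((({i, j, k} : Finset (Fin (labs G).length)) : Set (Fin (labs G).length))) =
      {i, j, k} := by simp
    rw [e]
    exact (hli hij hjk).2 hd
  · obtain ⟨B, -, hsub, hspan, hBl⟩ := exists_linearIndepOn_extension hI (Set.subset_univ I)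
    have hf : (B.toFinset : Set (Fin (labs G).length)) = B := by simp
    have hBl' : LinearIndependent ℚ (fun x : B.toFinset => v x) := by
      rw [← hf] at hBl
      exact hBl
    -- the span is everything
    have h3 : LinearIndepOn ℚ v ({i0 G, i1 G, i3 G} : Set (Fin (labs G).length)) :=
      (hli (i0_lt G) (i1_lt G)).2 (dep_basis G)
    have htop : Submodule.span ℚ (Set.range v) = ⊤ := by
      rw [linearIndepOn_triple v (i0_lt G) (i1_lt G)] at h3
      have h4 := h3.span_eq_top_of_card_eq_finrank (by simp)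
      rw [eq_top_iff, ← h4]
      apply Submodule.span_mono
      rintro _ ⟨i, rfl⟩
      fin_cases i
      · exact ⟨_, rfl⟩
      · exact ⟨_, rfl⟩
      · exact ⟨_, rfl⟩
    have hspanB : Submodule.span ℚ (v '' B) = ⊤ := by
      rw [eq_top_iff, ← htop, Submodule.span_le, ← Set.image_univ]
      exact hspan
    have hcard : B.toFinset.card = 3 := by
      rw [← finrank_span_finset v B.toFinset hBl', hf, hspanB]
      simp
    obtain ⟨i, j, k, hij, hjk, hF⟩ := card3_sorted hcard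
    have e : B = ({i, j, k} : Set (Fin (labs G).length)) := by
      rw [← hf, hF]; simp
    rw [e] at hBl hsub
    exact ((h.indep_triple hij hjk).2 ((hli hij hjk).1 hBl)).subset hsub

/-- three elements (in any order) are independent iff they are independent in the matroid -/
theorem det_iff {G : List Gad} {M : Matroid (Fin (labs G).length)} (h : IsM G M)
    {v : Fin (labs G).length → Fin 3 → ℚ}
    (hv : ∀ I : Set (Fin (labs G).length), M.Indep I ↔ LinearIndepOn ℚ v I) :
    ∀ i j k : Fin (labs G).length, i ≠ j → i ≠ k → j ≠ k →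
      (det3 (v i) (v j) (v k) = 0 ↔ dep G (labs G)[i] (labs G)[j] (labs G)[k] = true) := by
  have key : ∀ i j k : Fin (labs G).length, i < j → j < k →
      (det3 (v i) (v j) (v k) = 0 ↔ dep G (labs G)[i] (labs G)[j] (labs G)[k] = true) := by
    intro i j k hij hjk
    rw [← not_iff_not, ← ne_eq, ← li_iff_det3, Bool.not_eq_true,
      ← h.indep_triple hij hjk, hv, linearIndepOn_triple v hij hjk]
  refine sorted_wlog _ ?_ ?_ key
  · intro i j k h
    rw [det3_swap12, neg_eq_zero, dep_swap12, h]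
  · intro i j k h
    rw [det3_swap23, neg_eq_zero, dep_swap23, h]

/-- A representation by vectors of a three-dimensional space gives a configuration. -/
theorem cfg_of_rep {G : List Gad} {M : Matroid (Fin (labs G).length)} (h : IsM G M)
    {v : Fin (labs G).length → Fin 3 → ℚ}
    (hv : ∀ I : Set (Fin (labs G).length), M.Indep I ↔ LinearIndepOn ℚ v I)
    {idx : Lab → Fin (labs G).length} (hidx : ∀ l ∈ labs G, (labs G)[idx l] = l) :
    Cfg G (fun l => v (idx l)) := by
  intro l₁ h₁ l₂ h₂ l₃ h₃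
  by_cases h12 : l₁ = l₂
  · subst h12
    refine iff_of_true (by unfold det3; ring) ((H881R2.Mat.dep_iff _ _ _ _).2 (Or.inl (Or.inl rfl)))
  by_cases h13 : l₁ = l₃
  · subst h13
    refine iff_of_true (by unfold det3; ring) ((H881R2.Mat.dep_iff _ _ _ _).2 (Or.inl (Or.inr (Or.inl rfl))))
  by_cases h23 : l₂ = l₃
  · subst h23
    refine iff_of_true (by unfold det3; ring) ((H881R2.Mat.dep_iff _ _ _ _).2 (Or.inl (Or.inr (Or.inr rfl))))
  have hne : ∀ a ∈ labs G, ∀ b ∈ labs G, a ≠ b → idx a ≠ idx b := by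
    intro a ha b hb hab h
    apply hab
    rw [← hidx a ha, ← hidx b hb]
    simp only [h]
  have := det_iff h hv _ _ _ (hne _ h₁ _ h₂ h12) (hne _ h₁ _ h₃ h13) (hne _ h₂ _ h₃ h23)
  rw [hidx _ h₁, hidx _ h₂, hidx _ h₃] at this
  exact this

end Pool.Agent.TH588.MX
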