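import Pool.Agent.TH588.MX.Ext
import Pool.Agent.TH588.MX.Prim

/-!
# Systems with a numerical parameter, and their computability
-/

set_option autoImplicit false

namespace Pool.Agent.TH588.MX

open Pool.Agent.NPC Pool.Agent.H881R2.Mat Pool.Agent.H528R5
open Pool.Agent.H528R2 (HoldsQ DioQ)

theorem exists_bound (S : List ER.Con) : ∃ B, 2 ≤ B ∧ ∀ c ∈ S, ∀ v v' : ℕ → ℚ,
    (∀ i < B, v i = v' i) → HoldsQ v c → HoldsQ v' c := by
  induction S with
  | nil => exact ⟨2, le_rfl, by simp⟩
  | cons c S ih =>
    obtain ⟨B, hB, h⟩ := ih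
    obtain ⟨B', h'⟩ : ∃ B', ∀ v v' : ℕ → ℚ, (∀ i < B', v i = v' i) → HoldsQ v c → HoldsQ v' c := by
      cases c with
      | one i =>
        refine ⟨i + 1, fun v v' hv h => ?_⟩
        have h1 := hv i (by omega)
        change v i = 1 at h
        change v' i = 1
        rw [← h1, h]
      | add i j k =>
        refine ⟨i + j + k + 1, fun v v' hv h => ?_⟩
        have h1 := hv i (by omega)
        have h2 := hv j (by omega)
        have h3 := hv k (by omega)
        change v i + v j = v k at h
        change v' i + v' j = v' k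
        rw [← h1, ← h2, ← h3, h]
      | mul i j k =>
        refine ⟨i + j + k + 1, fun v v' hv h => ?_⟩
        have h1 := hv i (by omega)
        have h2 := hv j (by omega)
        have h3 := hv k (by omega)
        change v i * v j = v k at h
        change v' i * v' j = v' k
        rw [← h1, ← h2, ← h3, h]
    refine ⟨max B B', le_trans hB (le_max_left _ _), fun c' hc' v v' hv hh => ?_⟩
    rcases List.mem_cons.1 hc' with rfl | hc'
    · exact h' v v' (fun i hi => hv i (lt_of_lt_of_le hi (le_max_right _ _))) hh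
    · exact h c' hc' v v' (fun i hi => hv i (lt_of_lt_of_le hi (le_max_left _ _))) hh

/-- constraints which force the variable `0` to be equal to `c` -/
def chain (B c : ℕ) : List ER.Con :=
  [.one B, .add (B + 1) (B + 1) (B + 1), .add (B + 1) (B + 1 + c) 0] ++
    (List.range c).map (fun k => .add (B + 1 + k) B (B + 2 + k))

theorem chain_sound {B c : ℕ} {v : ℕ → ℚ} (h : ∀ d ∈ chain B c, HoldsQ v d) : v 0 = c := by
  have h1 : v B = 1 := h (.one B) (by simp [chain])
  have h2 : v (B + 1) + v (B + 1) = v (B + 1) := h (.add _ _ _) (by simp [chain])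
  have h3 : v (B + 1) + v (B + 1 + c) = v 0 :=
    h (.add (B + 1) (B + 1 + c) 0) (by simp [chain])
  have h4 : ∀ k < c, v (B + 1 + k) + v B = v (B + 2 + k) := fun k hk =>
    h (.add _ _ _) (List.mem_append_right _ (List.mem_map.2 ⟨k, List.mem_range.2 hk, rfl⟩))
  have h5 : ∀ k ≤ c, v (B + 1 + k) = k := by
    intro k
    induction k with
    | zero => intro _; simp; linarith
    | succ k ih =>
      intro hk
      have e := h4 k (by omega)
      rw [ih (by omega), h1] at e
      rw [show B + 1 + (k + 1) = B + 2 + k by ring, ← e]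
      push_cast
      ring
  have h6 := h5 c le_rfl
  rw [h6] at h3
  have : v (B + 1) = 0 := by linarith
  linarith

/-- a system with the value of the variable `0` fixed -/
def sysC (S₀ : List ER.Con) (B c : ℕ) : List ER.Con := S₀ ++ chain B c

theorem sysC_iff {R : (Fin 2 → ℚ) → Prop} {S₀ : List ER.Con}
    (hS : ∀ x, R x ↔ ∃ v : ℕ → ℚ, (∀ i : Fin 2, v i = x i) ∧ ∀ c ∈ S₀, HoldsQ v c) {B : ℕ}
    (hB2 : 2 ≤ B) (hB : ∀ c ∈ S₀, ∀ v v' : ℕ → ℚ, (∀ i < B, v i = v' i) → HoldsQ v c →
      HoldsQ v' c) (c : ℕ) (t : ℚ) :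
    (∃ v : ℕ → ℚ, (∀ d ∈ sysC S₀ B c, HoldsQ v d) ∧ v 1 = t) ↔ R ![(c : ℚ), t] := by
  rw [hS]
  constructor
  · rintro ⟨v, hv, h1⟩
    refine ⟨v, ?_, fun d hd => hv d (List.mem_append_left _ hd)⟩
    have h0 := chain_sound (fun d hd => hv d (List.mem_append_right _ hd))
    intro i
    fin_cases i
    · exact h0
    · exact h1
  · rintro ⟨v, hx, hv⟩
    let v' : ℕ → ℚ := fun i => if i < B then v i else if i = B then 1 else ((i - (B + 1) : ℕ) : ℚ)
    have hlt : ∀ i < B, v' i = v i := fun i hi => by simp [v', hi]
    have hBB : v' B = 1 := by simp [v']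
    have hk : ∀ k, v' (B + 1 + k) = k := by
      intro k
      have h1 : ¬ B + 1 + k < B := by omega
      have h2 : ¬ B + 1 + k = B := by omega
      have h3 : B + 1 + k - (B + 1) = k := by omega
      simp only [v', if_neg h1, if_neg h2, h3]
    have h00 : v' 0 = c := by
      rw [hlt 0 (by omega)]
      exact hx 0
    refine ⟨v', fun d hd => ?_, ?_⟩
    · rcases List.mem_append.1 hd with hd | hd
      · exact hB d hd v v' (fun i hi => (hlt i hi).symm) (hv d hd)
      · rcases List.mem_append.1 hd with hd | hd
        · simp only [List.mem_cons, List.not_mem_nil, or_false] at hd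
          have h10 := hk 0
          rw [add_zero, Nat.cast_zero] at h10
          rcases hd with rfl | rfl | rfl
          · exact hBB
          · change v' (B + 1) + v' (B + 1) = v' (B + 1)
            rw [h10, add_zero]
          · change v' (B + 1) + v' (B + 1 + c) = v' 0
            rw [h10, hk, h00, zero_add]
        · obtain ⟨k, -, rfl⟩ := List.mem_map.1 hd
          change v' (B + 1 + k) + v' B = v' (B + 2 + k)
          rw [show B + 2 + k = B + 1 + (k + 1) by ring, hk, hk, hBB]
          push_cast
          ring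
    · rw [hlt 1 (by omega)]
      exact hx 1

/-! ### computability -/

theorem conG_code (c : ER.Con) (g : ℕ) : conG c g = conC c.code g := rfl

theorem toW_code (S : List ER.Con) :
    toW S = (S.map ER.Con.code).zipIdx.flatMap (fun q => conC q.1 q.2) := by
  rw [toW, List.zipIdx_map, List.flatMap_map]
  rfl

theorem map_code_sysC (S₀ : List ER.Con) (B c : ℕ) : (sysC S₀ B c).map ER.Con.code =
    S₀.map ER.Con.code ++ ([(0, B, 0, 0), (1, B + 1, B + 1, B + 1), (1, B + 1, B + 1 + c, 0)] ++
      (List.range c).map (fun k => (1, B + 1 + k, B, B + 2 + k))) := by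
  simp [sysC, chain, ER.Con.code, Function.comp_def]

theorem primrec_sys (S₀ : List ER.Con) (B : ℕ) :
    Primrec (fun c : ℕ => inst (sysG (sysC S₀ B c))) := by
  refine primrec_inst.comp ?_
  have h1 : (fun c : ℕ => sysG (sysC S₀ B c)) = fun c : ℕ => ext ++
      ((sysC S₀ B c).map ER.Con.code).zipIdx.flatMap (fun q => conC q.1 q.2) := by
    funext c
    rw [sysG, toW_code]
  rw [h1]
  refine Primrec.list_append.comp (Primrec.const ext) ?_
  have h2 : Primrec (fun c : ℕ => (sysC S₀ B c).map ER.Con.code) := by
    have h3 : (fun c : ℕ => (sysC S₀ B c).map ER.Con.code) = fun c : ℕ =>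
      S₀.map ER.Con.code ++ ([(0, B, 0, 0), (1, B + 1, B + 1, B + 1), (1, B + 1, B + 1 + c, 0)] ++
      (List.range c).map (fun k => (1, B + 1 + k, B, B + 2 + k))) :=
      funext fun c => map_code_sysC S₀ B c
    rw [h3]
    refine Primrec.list_append.comp (Primrec.const _) (Primrec.list_append.comp ?_ ?_)
    · refine Primrec.list_cons.comp (Primrec.const _) (Primrec.list_cons.comp (Primrec.const _)
        (Primrec.list_cons.comp ?_ (Primrec.const [])))
      exact Primrec.pair (Primrec.const 1) (Primrec.pair (Primrec.const _)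
        (Primrec.pair (Primrec.nat_add.comp (Primrec.const _) Primrec.id) (Primrec.const 0)))
    · refine Primrec.list_map Primrec.list_range ?_
      exact Primrec.pair (Primrec.const 1) (Primrec.pair
        (Primrec.nat_add.comp (Primrec.const _) Primrec.snd) (Primrec.pair (Primrec.const _)
        (Primrec.nat_add.comp (Primrec.const _) Primrec.snd)))
  exact Primrec.list_flatMap (przipIdx h2) (primrec_conC.comp₂
    (Primrec.fst.comp₂ Primrec₂.right) (Primrec.snd.comp₂ Primrec₂.right))

end Pool.Agent.TH588.MX
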